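import Mathlib
import Pool.Agent.helper22.Nut.Excl

/-!
# Orders of regular nut graphs

For every degree `r`, the orders of the `r`-regular nut graphs are exactly the integers
`n` with `r + 4 ≤ n` and `r * n` even, outside thirteen exceptional pairs `(r, n)`; there
are none for `r = 1, 2`.
-/

namespace Pool.Agent.Results.MP_a38f8e_co.RegularNutOrders

/-- `G` is a nut graph: it has at least two vertices, the kernel of its real adjacency matrix
is one-dimensional, and it is spanned by a vector without zero entries. -/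
def IsNut {V : Type} [Fintype V] [DecidableEq V] (G : SimpleGraph V) [DecidableRel G.Adj] :
    Prop :=
  2 ≤ Fintype.card V ∧
    Module.finrank ℝ (LinearMap.ker (Matrix.toLin' (G.adjMatrix ℝ))) = 1 ∧
      ∃ x : V → ℝ, (∀ v, x v ≠ 0) ∧
        LinearMap.ker (Matrix.toLin' (G.adjMatrix ℝ)) = Submodule.span ℝ {x}

/-- The set `N(r)` of orders of `r`-regular nut graphs. -/
def nutOrders (r : ℕ) : Set ℕ :=
  {n | ∃ (G : SimpleGraph (Fin n)) (_ : DecidableRel G.Adj),
    G.IsRegularOfDegree r ∧ IsNut G}

/-- **Orders of regular nut graphs.** For every positive integer `r`, there is an `r`-regular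
nut graph on `n` vertices if and only if `3 ≤ r`, `r + 4 ≤ n`, `r * n` is even and `(r, n)` is
not one of the thirteen listed pairs. -/
theorem result (r : ℕ) (hr : 0 < r) (n : ℕ) :
    n ∈ nutOrders r ↔
      3 ≤ r ∧ r + 4 ≤ n ∧ Even (r * n) ∧
        (r, n) ∉ ({(3, 8), (3, 10), (3, 14), (3, 16), (4, 9), (4, 11), (4, 13), (6, 10),
          (6, 11), (8, 13), (9, 14), (10, 14), (14, 18)} : Set (ℕ × ℕ)) := by
  have h := Pool.Agent.helper22.Nut.mem_nutOrders (r := r) (n := n) hr
  have h2 : (r, n) ∈ Pool.Agent.helper22.Nut.excList ↔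
      (r, n) ∈ ({(3, 8), (3, 10), (3, 14), (3, 16), (4, 9), (4, 11), (4, 13), (6, 10),
          (6, 11), (8, 13), (9, 14), (10, 14), (14, 18)} : Set (ℕ × ℕ)) := by
    simp only [Pool.Agent.helper22.Nut.excList, List.mem_cons, List.not_mem_nil, or_false,
      Set.mem_insert_iff, Set.mem_singleton_iff]
  rw [h2] at h
  exact h

end Pool.Agent.Results.MP_a38f8e_co.RegularNutOrders
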